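import Mathlib
import Pool.Agent.Lib.MP_9dd505_an.Planar

set_option autoImplicit false

namespace Pool.Agent.Results.MP_9dd505_an.NotAdmissible

open Set Filter Topology

section Definitions

variable {A : Type*} [NormedRing A] [NormedAlgebra ℝ A]

/-- `e₁, e₂` is admissible: there are `p₁, p₂` with `p_j e_l + p_l e_j = 2 δ_{jl}`. -/
def Admissible (e₁ e₂ : A) : Prop :=
  ∃ p₁ p₂ : A, p₁ * e₁ + p₁ * e₁ = 2 ∧ p₂ * e₂ + p₂ * e₂ = 2 ∧ p₁ * e₂ + p₂ * e₁ = 0

/-- `f` is left analytic on `U`, in the coordinates `(x₁, x₂)` of `V = span {e₁, e₂}`: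
`f` is (real) differentiable on `U` and `e₁ ∂f/∂x₁ + e₂ ∂f/∂x₂ = 0` there. -/
def LeftAnalytic (e₁ e₂ : A) (U : Set (ℝ × ℝ)) (f : ℝ × ℝ → A) : Prop :=
  ∀ x ∈ U, DifferentiableAt ℝ f x ∧
    e₁ * fderiv ℝ f x (1, 0) + e₂ * fderiv ℝ f x (0, 1) = 0

/-- The quarter turn to the left. -/
def turn (v : ℝ × ℝ) : ℝ × ℝ := (-v.2, v.1)

/-- `M` is a compact plane region with boundary of class `C^1`, and `c 0, ..., c (m-1)` are regular
parametrisations, of period `1`, of the finitely many simple closed curves that make up the boundary,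
with the induced orientation (`M` lies on the left). The boundary is disjoint union of the curves. -/
structure Region (M : Set (ℝ × ℝ)) (m : ℕ) (c : Fin m → ℝ → ℝ × ℝ) : Prop where
  compact : IsCompact M
  smooth : ∀ i, ContDiff ℝ 1 (c i)
  periodic : ∀ i t, c i (t + 1) = c i t
  regular : ∀ i t, deriv (c i) t ≠ 0
  simple : ∀ i j s t, s ∈ Ico (0 : ℝ) 1 → t ∈ Ico (0 : ℝ) 1 → c i s = c j t → i = j ∧ s = t
  boundary : frontier M = ⋃ i, range (c i)
  left : ∀ i t, ∀ᶠ ε : ℝ in 𝓝[>] 0,
    c i t + ε • turn (deriv (c i) t) ∈ interior M ∧ c i t - ε • turn (deriv (c i) t) ∉ M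

/-- The kernel `G` gives a Cauchy integral formula for `e₁, e₂`:
`f(x₀) = ∫_{∂M} G(x,x₀) (-e₁ dx₂ + e₂ dx₁) f(x)`. -/
def GivesCauchyFormula (e₁ e₂ : A) (G : ℝ × ℝ → ℝ × ℝ → A) : Prop :=
  ∀ U : Set (ℝ × ℝ), IsOpen U → ∀ f : ℝ × ℝ → A, LeftAnalytic e₁ e₂ U f →
    ∀ (M : Set (ℝ × ℝ)) (m : ℕ) (c : Fin m → ℝ → ℝ × ℝ), Region M m c → M ⊆ U →
      ∀ x₀ ∈ interior M,
        f x₀ = ∑ i, ∫ t in (0 : ℝ)..1, G (c i t) x₀ *
          (-((deriv (c i) t).2 • e₁) + (deriv (c i) t).1 • e₂) * f (c i t)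

/-- The negated form of the question holds in the algebra `A` with `k = 2`: some linearly independent
`e₁, e₂` have a Cauchy integral formula with a kernel that is of class `C^1`, and even real analytic,
off the diagonal, while neither `e₁, e₂` nor any other pair of elements of their span `V` (in
particular no other basis of `V`) is admissible. -/
def Counterexample (A : Type*) [NormedRing A] [NormedAlgebra ℝ A] : Prop :=
  ∃ e₁ e₂ : A, LinearIndependent ℝ ![e₁, e₂] ∧
    (∀ e₁' ∈ Submodule.span ℝ {e₁, e₂}, ∀ e₂' ∈ Submodule.span ℝ {e₁, e₂},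
      ¬ Admissible e₁' e₂') ∧
    ∃ G : ℝ × ℝ → ℝ × ℝ → A,
      ContDiffOn ℝ 1 (fun p : (ℝ × ℝ) × (ℝ × ℝ) => G p.1 p.2) {p | p.1 ≠ p.2} ∧
      AnalyticOnNhd ℝ (fun p : (ℝ × ℝ) × (ℝ × ℝ) => G p.1 p.2) {p | p.1 ≠ p.2} ∧
      GivesCauchyFormula e₁ e₂ G

end Definitions

/-- Sanity check (not part of the result): the closed unit disc, bounded by the unit circle in its
standard parametrisation, is a region in the above sense. -/
lemma region_disc : Region {p : ℝ × ℝ | p.1 ^ 2 + p.2 ^ 2 ≤ 1} 1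
    (fun _ t => (Real.cos (2 * Real.pi * t), Real.sin (2 * Real.pi * t))) := by
  have hM : {p : ℝ × ℝ | p.1 ^ 2 + p.2 ^ 2 ≤ 1}
      = Complex.equivRealProdCLM.toHomeomorph '' Metric.closedBall 0 1 := by
    ext p
    constructor
    · intro hp
      refine ⟨(p.1 : ℂ) + p.2 * Complex.I, ?_, ?_⟩
      · rw [mem_closedBall_zero_iff, Complex.norm_add_mul_I, Real.sqrt_le_one]
        exact hp
      · apply Prod.ext <;> simp
    · rintro ⟨z, hz, rfl⟩
      rw [mem_closedBall_zero_iff] at hz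
      have h1 : ‖z‖ ^ 2 = z.re ^ 2 + z.im ^ 2 := by
        rw [← Complex.normSq_eq_norm_sq, Complex.normSq_apply]
        ring
      have h2 : ‖z‖ ^ 2 ≤ 1 := by nlinarith [norm_nonneg z]
      show z.re ^ 2 + z.im ^ 2 ≤ 1
      rwa [h1] at h2
  have hder : ∀ t : ℝ, deriv (fun t : ℝ => (Real.cos (2 * Real.pi * t), Real.sin (2 * Real.pi * t))) t
      = (-(2 * Real.pi) * Real.sin (2 * Real.pi * t), (2 * Real.pi) * Real.cos (2 * Real.pi * t)) := by
    intro t
    have h0 : HasDerivAt (fun t : ℝ => 2 * Real.pi * t) (2 * Real.pi) t := by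
      simpa using (hasDerivAt_id t).const_mul (2 * Real.pi)
    have h1 := (h0.cos).prodMk (h0.sin)
    rw [h1.deriv]
    apply Prod.ext
    · simp
      ring
    · simp
      ring
  have hcs : ∀ t : ℝ, Real.cos (2 * Real.pi * t) ^ 2 + Real.sin (2 * Real.pi * t) ^ 2 = 1 :=
    fun t => Real.cos_sq_add_sin_sq _
  have hint : {p : ℝ × ℝ | p.1 ^ 2 + p.2 ^ 2 < 1} ⊆ interior {p : ℝ × ℝ | p.1 ^ 2 + p.2 ^ 2 ≤ 1} := by
    refine interior_maximal (fun p (hp : p.1 ^ 2 + p.2 ^ 2 < 1) => hp.le) ?_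
    exact isOpen_lt (by fun_prop) continuous_const
  refine ⟨?_, ?_, ?_, ?_, ?_, ?_, ?_⟩
  · rw [hM]
    exact (isCompact_closedBall _ _).image (Complex.equivRealProdCLM.toHomeomorph.continuous)
  · intro _
    fun_prop
  · intro _ t
    have : 2 * Real.pi * (t + 1) = 2 * Real.pi * t + 2 * Real.pi := by ring
    simp only [this, Real.cos_add_two_pi, Real.sin_add_two_pi]
  · intro _ t h0
    rw [hder t] at h0
    have h1 : -(2 * Real.pi) * Real.sin (2 * Real.pi * t) = 0 := congrArg Prod.fst h0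
    have h2 : (2 * Real.pi) * Real.cos (2 * Real.pi * t) = 0 := congrArg Prod.snd h0
    have hpi := Real.pi_pos
    have h3 : Real.sin (2 * Real.pi * t) = 0 := by
      rcases mul_eq_zero.mp h1 with h | h
      · linarith
      · exact h
    have h4 : Real.cos (2 * Real.pi * t) = 0 := by
      rcases mul_eq_zero.mp h2 with h | h
      · linarith
      · exact h
    have h5 := hcs t
    rw [h3, h4] at h5
    norm_num at h5
  · intro i j s t hs ht h
    refine ⟨Subsingleton.elim _ _, ?_⟩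
    have h1 : Real.cos (2 * Real.pi * s) = Real.cos (2 * Real.pi * t) := congrArg Prod.fst h
    have h2 : Real.sin (2 * Real.pi * s) = Real.sin (2 * Real.pi * t) := congrArg Prod.snd h
    have h3 : Complex.exp ((2 * Real.pi * s : ℝ) * Complex.I)
        = Complex.exp ((2 * Real.pi * t : ℝ) * Complex.I) := by
      rw [Complex.exp_mul_I, Complex.exp_mul_I, ← Complex.ofReal_cos, ← Complex.ofReal_sin,
        ← Complex.ofReal_cos, ← Complex.ofReal_sin, h1, h2]
    obtain ⟨n, hn⟩ := Complex.exp_eq_exp_iff_exists_int.mp h3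
    have h4 := congrArg Complex.im hn
    simp at h4
    have h5 : s = t + n := by
      have hpi := Real.pi_pos
      have : 2 * Real.pi * (s - (t + n)) = 0 := by linarith
      rcases mul_eq_zero.mp this with h | h
      · linarith
      · linarith
    have h6 : (n : ℝ) < 1 := by linarith [hs.2, ht.1]
    have h7 : (-1 : ℝ) < n := by linarith [hs.1, ht.2]
    have h6' : n < 1 := by exact_mod_cast h6
    have h7' : -1 < n := by exact_mod_cast h7
    have h8 : n = 0 := by omega
    rw [h5, h8]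
    simp
  · rw [hM, ← Homeomorph.image_frontier, frontier_closedBall _ one_ne_zero, iUnion_const]
    ext p
    constructor
    · rintro ⟨z, hz, rfl⟩
      rw [mem_sphere_zero_iff_norm] at hz
      refine ⟨Complex.arg z / (2 * Real.pi), ?_⟩
      have h1 : 2 * Real.pi * (Complex.arg z / (2 * Real.pi)) = Complex.arg z := by
        field_simp
      have hz0 : z ≠ 0 := by
        rintro rfl
        simp at hz
      simp only [h1]
      rw [Complex.cos_arg hz0, Complex.sin_arg, hz]
      apply Prod.ext <;> simp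
    · rintro ⟨t, rfl⟩
      have h1 := hcs t
      beta_reduce
      generalize Real.cos (2 * Real.pi * t) = C at h1 ⊢
      generalize Real.sin (2 * Real.pi * t) = S at h1 ⊢
      refine ⟨(C : ℂ) + S * Complex.I, ?_, ?_⟩
      · rw [mem_sphere_zero_iff_norm, Complex.norm_add_mul_I, h1, Real.sqrt_one]
      · apply Prod.ext <;> simp
  · intro _ t
    have hpi := Real.pi_pos
    have hev : Ioo (0 : ℝ) (1 / (2 * Real.pi)) ∈ 𝓝[>] (0 : ℝ) := Ioo_mem_nhdsGT (by positivity)
    filter_upwards [hev] with ε hε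
    have h1 := hcs t
    have h2 : 0 < 2 * Real.pi * ε := by
      have := hε.1
      positivity
    have h3 : 2 * Real.pi * ε < 1 := by
      have := hε.2
      rw [lt_div_iff₀ (by positivity)] at this
      linarith
    rw [hder t]
    set C := Real.cos (2 * Real.pi * t)
    set S := Real.sin (2 * Real.pi * t)
    refine ⟨hint ?_, ?_⟩
    · show (C + ε * -(2 * Real.pi * C)) ^ 2 + (S + ε * (-(2 * Real.pi) * S)) ^ 2 < 1
      have e : (C + ε * -(2 * Real.pi * C)) ^ 2 + (S + ε * (-(2 * Real.pi) * S)) ^ 2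
          = (1 - 2 * Real.pi * ε) ^ 2 * (C ^ 2 + S ^ 2) := by ring
      rw [e, h1]
      nlinarith
    · show ¬ ((C - ε * -(2 * Real.pi * C)) ^ 2 + (S - ε * (-(2 * Real.pi) * S)) ^ 2 ≤ 1)
      have e : (C - ε * -(2 * Real.pi * C)) ^ 2 + (S - ε * (-(2 * Real.pi) * S)) ^ 2
          = (1 + 2 * Real.pi * ε) ^ 2 * (C ^ 2 + S ^ 2) := by ring
      rw [e, h1]
      nlinarith


section General

variable {A : Type*} [NormedRing A] [NormedAlgebra ℂ A]

/-- the second element `e₂ = i p + 2 i (1 - p)` (the first one is `e₁ = 1`) -/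
noncomputable def e2 (p : A) : A := Complex.I • p + (2 * Complex.I) • (1 - p)

/-- The scalar kernels: the Cauchy kernels of `∂₁ + k i ∂₂`. -/
noncomputable def sk (k : ℝ) (hk : 0 < k) (x x₀ : ℝ × ℝ) : ℂ :=
  -(1 / (2 * Real.pi)) / (Pool.Agent.MP9dd505.phi k hk x - Pool.Agent.MP9dd505.phi k hk x₀)

/-- The kernel: the `p`-part and the `(1 - p)`-part are the Cauchy kernels of `∂₁ + i ∂₂` and of
`∂₁ + 2 i ∂₂`. -/
noncomputable def kernel (p : A) (x x₀ : ℝ × ℝ) : A :=
  sk 1 one_pos x x₀ • p + sk 2 two_pos x x₀ • (1 - p)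

lemma mem_span_form {p : A} {e : A} (h : e ∈ Submodule.span ℝ {(1 : A), e2 p}) :
    ∃ a b : ℝ, e = ((a : ℂ) + b * Complex.I) • p + ((a : ℂ) + 2 * b * Complex.I) • (1 - p) := by
  obtain ⟨a, b, rfl⟩ := Submodule.mem_span_pair.mp h
  refine ⟨a, b, ?_⟩
  have h1 : (a • (1 : A)) = (a : ℂ) • p + (a : ℂ) • (1 - p) := by
    rw [← smul_add, add_sub_cancel]
    exact (Complex.coe_smul a (1 : A)).symm
  have h2 : b • e2 p = ((b : ℂ) * Complex.I) • p + (2 * b * Complex.I) • (1 - p) := by
    rw [← Complex.coe_smul b (e2 p), e2, smul_add, smul_smul, smul_smul]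
    congr 2
    ring
  rw [h1, h2, add_smul, add_smul]
  abel

lemma idem_mul {p : A} (hp : p * p = p) (u₁ u₂ v₁ v₂ : ℂ) :
    (u₁ • p + u₂ • (1 - p)) * (v₁ • p + v₂ • (1 - p))
      = (u₁ * v₁) • p + (u₂ * v₂) • (1 - p) := by
  have h1 : p * (1 - p) = 0 := by rw [mul_sub, mul_one, hp, sub_self]
  have h2 : (1 - p) * p = 0 := by rw [sub_mul, one_mul, hp, sub_self]
  have h3 : (1 - p) * (1 - p) = 1 - p := by rw [mul_sub, mul_one, h2, sub_zero]
  rw [add_mul, mul_add, mul_add, smul_mul_smul_comm, smul_mul_smul_comm, smul_mul_smul_comm,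
    smul_mul_smul_comm, hp, h1, h2, h3, smul_zero, smul_zero, add_zero, zero_add]

lemma comb_zero {p : A} (hp : p * p = p) (h0 : p ≠ 0) (h1 : p ≠ 1) {u v : ℂ}
    (h : u • p + v • (1 - p) = 0) : u = 0 ∧ v = 0 := by
  have h1' : p * (1 - p) = 0 := by rw [mul_sub, mul_one, hp, sub_self]
  have h2 : (1 - p) * p = 0 := by rw [sub_mul, one_mul, hp, sub_self]
  have h3 : (1 - p) * (1 - p) = 1 - p := by rw [mul_sub, mul_one, h2, sub_zero]
  have hq : 1 - p ≠ 0 := fun h => h1 (sub_eq_zero.mp h).symm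
  constructor
  · have := congrArg (fun z => p * z) h
    simp only [mul_add, mul_smul_comm, hp, h1', smul_zero, add_zero, mul_zero] at this
    exact (smul_eq_zero.mp this).resolve_right h0
  · have := congrArg (fun z => (1 - p) * z) h
    simp only [mul_add, mul_smul_comm, h2, h3, smul_zero, zero_add, mul_zero] at this
    exact (smul_eq_zero.mp this).resolve_right hq

lemma linInd {p : A} (hp : p * p = p) (h0 : p ≠ 0) (h1 : p ≠ 1) :
    LinearIndependent ℝ ![(1 : A), e2 p] := by
  rw [LinearIndependent.pair_iff]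
  intro s t hst
  have h2 : s • (1 : A) + t • e2 p
      = ((s : ℂ) + t * Complex.I) • p + ((s : ℂ) + 2 * t * Complex.I) • (1 - p) := by
    have h3 : (s • (1 : A)) = (s : ℂ) • p + (s : ℂ) • (1 - p) := by
      rw [← smul_add, add_sub_cancel]
      exact (Complex.coe_smul s (1 : A)).symm
    have h4 : t • e2 p = ((t : ℂ) * Complex.I) • p + (2 * t * Complex.I) • (1 - p) := by
      rw [← Complex.coe_smul t (e2 p), e2, smul_add, smul_smul, smul_smul]
      congr 2
      ring
    rw [h3, h4, add_smul, add_smul]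
    abel
  rw [h2] at hst
  have h5 := (comb_zero hp h0 h1 hst).1
  have h6 := congrArg Complex.re h5
  have h7 := congrArg Complex.im h5
  simp at h6 h7
  exact ⟨h6, h7⟩

lemma not_admissible {p : A} (hp : p * p = p) (h0 : p ≠ 0) (h1 : p ≠ 1) {e₁' e₂' : A}
    (h₁ : e₁' ∈ Submodule.span ℝ {(1 : A), e2 p}) (h₂ : e₂' ∈ Submodule.span ℝ {(1 : A), e2 p}) :
    ¬ Admissible e₁' e₂' := by
  rintro ⟨p₁, p₂, hp1, hp2, hp3⟩
  obtain ⟨a, b, rfl⟩ := mem_span_form h₁
  obtain ⟨c, d, rfl⟩ := mem_span_form h₂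
  set u := ((a : ℂ) + b * Complex.I) • p + ((a : ℂ) + 2 * b * Complex.I) • (1 - p) with hu
  set v := ((c : ℂ) + d * Complex.I) • p + ((c : ℂ) + 2 * d * Complex.I) • (1 - p) with hv
  have half : ∀ x : A, x + x = 2 → x = 1 := by
    intro x hx
    have h2 : (2 : ℂ) • x = (2 : ℂ) • (1 : A) := by
      rw [two_smul, two_smul, hx, one_add_one_eq_two]
    exact smul_right_injective A (two_ne_zero (α := ℂ)) h2
  have e1 := half _ hp1
  have e3 := half _ hp2
  have comm : u * v = v * u := by
    rw [hu, hv, idem_mul hp, idem_mul hp]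
    congr 1
    · rw [mul_comm]
    · rw [mul_comm]
  have key : v * v + u * u = 0 := by
    have h4 : (p₁ * v + p₂ * u) * (u * v) = 0 := by rw [hp3, zero_mul]
    have h5 : (p₁ * v + p₂ * u) * (u * v) = (p₁ * u) * (v * v) + (p₂ * v) * (u * u) := by
      have h6 : v * (u * v) = u * (v * v) := by rw [← mul_assoc, ← comm, mul_assoc]
      have h7 : u * (u * v) = v * (u * u) := by
        rw [comm, ← mul_assoc, comm, mul_assoc]
      rw [add_mul, mul_assoc p₁, mul_assoc p₂, h6, h7, ← mul_assoc p₁, ← mul_assoc p₂]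
    rw [h5, e1, e3, one_mul, one_mul] at h4
    exact h4
  rw [hu, hv, idem_mul hp, idem_mul hp] at key
  have key2 : (((c : ℂ) + d * Complex.I) * ((c : ℂ) + d * Complex.I)
        + ((a : ℂ) + b * Complex.I) * ((a : ℂ) + b * Complex.I)) • p
      + (((c : ℂ) + 2 * d * Complex.I) * ((c : ℂ) + 2 * d * Complex.I)
        + ((a : ℂ) + 2 * b * Complex.I) * ((a : ℂ) + 2 * b * Complex.I)) • (1 - p) = 0 := by
    rw [add_smul, add_smul, ← key]
    abel
  obtain ⟨k1, k2⟩ := comb_zero hp h0 h1 key2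
  have f1 := congrArg Complex.re k1
  have f2 := congrArg Complex.re k2
  simp at f1 f2
  have g1 : b = 0 := by nlinarith [sq_nonneg a, sq_nonneg b, sq_nonneg c, sq_nonneg d]
  have g2 : a = 0 := by nlinarith [sq_nonneg a, sq_nonneg b, sq_nonneg c, sq_nonneg d]
  have h3 : u = 0 := by
    rw [hu, g1, g2]
    simp
  rw [h3, mul_zero] at e1
  have h4 : (1 : A) = 0 := e1.symm
  apply h0
  calc p = p * 1 := (mul_one p).symm
    _ = 0 := by rw [h4, mul_zero]

lemma sk_analytic (k : ℝ) (hk : 0 < k) :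
    AnalyticOnNhd ℝ (fun q : (ℝ × ℝ) × (ℝ × ℝ) => sk k hk q.1 q.2) {q | q.1 ≠ q.2} := by
  intro p hp
  unfold sk
  refine AnalyticAt.div analyticAt_const ?_ ?_
  · refine AnalyticAt.sub ?_ ?_
    · exact ((Pool.Agent.MP9dd505.phi k hk : (ℝ × ℝ) →L[ℝ] ℂ).comp
        (ContinuousLinearMap.fst ℝ (ℝ × ℝ) (ℝ × ℝ))).analyticAt p
    · exact ((Pool.Agent.MP9dd505.phi k hk : (ℝ × ℝ) →L[ℝ] ℂ).comp
        (ContinuousLinearMap.snd ℝ (ℝ × ℝ) (ℝ × ℝ))).analyticAt p
  · rw [sub_ne_zero]
    intro h0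
    exact hp ((Pool.Agent.MP9dd505.phi k hk).injective h0)

lemma kernel_analytic (p : A) :
    AnalyticOnNhd ℝ (fun q : (ℝ × ℝ) × (ℝ × ℝ) => kernel p q.1 q.2) {q | q.1 ≠ q.2} := by
  intro q hq
  have hs : ∀ (k : ℝ) (hk : 0 < k) (a : A),
      AnalyticAt ℝ (fun q : (ℝ × ℝ) × (ℝ × ℝ) => sk k hk q.1 q.2 • a) q := by
    intro k hk a
    have h1 : AnalyticAt ℝ (fun z : ℂ => z • a) (sk k hk q.1 q.2) :=
      ((ContinuousLinearMap.toSpanSingleton ℂ a).restrictScalars ℝ).analyticAt _
    exact AnalyticAt.comp (g := fun z : ℂ => z • a)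
      (f := fun q : (ℝ × ℝ) × (ℝ × ℝ) => sk k hk q.1 q.2) h1 (sk_analytic k hk q hq)
  exact (hs 1 one_pos p).add (hs 2 two_pos (1 - p))

lemma cauchy_formula [CompleteSpace A] {p : A} (hp : p * p = p) :
    GivesCauchyFormula (1 : A) (e2 p) (kernel p) := by
  intro U hU f hf M m c hR hMU x₀ hx₀
  have hfd : ∀ x ∈ U, HasFDerivAt f (fderiv ℝ f x) x := fun x hx => (hf x hx).1.hasFDerivAt
  have hcont : ∀ i, Continuous (c i) := fun i => (hR.smooth i).continuous
  have hcont' : ∀ i, Continuous (deriv (c i)) := fun i => (hR.smooth i).continuous_deriv le_rfl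
  have hcM : ∀ i t, c i t ∈ frontier M := by
    intro i t
    rw [hR.boundary]
    exact mem_iUnion.mpr ⟨i, t, rfl⟩
  have hcU : ∀ i t, c i t ∈ U := fun i t =>
    hMU (hR.compact.isClosed.frontier_subset (hcM i t))
  have hcne : ∀ i t, c i t ≠ x₀ := by
    intro i t h0
    have := hcM i t
    rw [h0] at this
    exact this.2 hx₀
  have hfc : ∀ i, Continuous fun t => f (c i t) := by
    intro i
    rw [continuous_iff_continuousAt]
    intro t
    have h1 : ContinuousAt f (c i t) := (hfd _ (hcU i t)).continuousAt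
    exact ContinuousAt.comp (f := c i) (g := f) h1 (hcont i).continuousAt
  have hker : ∀ i, Continuous fun t => kernel p (c i t) x₀ := by
    intro i
    rw [continuous_iff_continuousAt]
    intro t
    have h1 : ContinuousAt (fun q : (ℝ × ℝ) × (ℝ × ℝ) => kernel p q.1 q.2) (c i t, x₀) :=
      (kernel_analytic p (c i t, x₀) (hcne i t)).continuousAt
    have h2 : ContinuousAt (fun t => (c i t, x₀)) t :=
      (hcont i).continuousAt.prodMk continuousAt_const
    exact ContinuousAt.comp (f := fun t => (c i t, x₀))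
      (g := fun q : (ℝ × ℝ) × (ℝ × ℝ) => kernel p q.1 q.2) h1 h2
  have hsk : ∀ (k : ℝ) (hk : 0 < k) i, Continuous fun t => sk k hk (c i t) x₀ := by
    intro k hk i
    rw [continuous_iff_continuousAt]
    intro t
    have h1 : ContinuousAt (fun q : (ℝ × ℝ) × (ℝ × ℝ) => sk k hk q.1 q.2) (c i t, x₀) :=
      (sk_analytic k hk (c i t, x₀) (hcne i t)).continuousAt
    have h2 : ContinuousAt (fun t => (c i t, x₀)) t :=
      (hcont i).continuousAt.prodMk continuousAt_const
    exact ContinuousAt.comp (f := fun t => (c i t, x₀))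
      (g := fun q : (ℝ × ℝ) × (ℝ × ℝ) => sk k hk q.1 q.2) h1 h2
  have hint : ∀ i, IntervalIntegrable (fun t => kernel p (c i t) x₀ *
      (-((deriv (c i) t).2 • (1 : A)) + (deriv (c i) t).1 • e2 p) * f (c i t))
      MeasureTheory.volume 0 1 := by
    intro i
    refine Continuous.intervalIntegrable ?_ _ _
    refine ((hker i).mul ?_).mul (hfc i)
    exact (((continuous_snd.comp (hcont' i)).smul continuous_const).neg).add
      ((continuous_fst.comp (hcont' i)).smul continuous_const)
  have h1p : p * (1 - p) = 0 := by rw [mul_sub, mul_one, hp, sub_self]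
  have h2p : (1 - p) * p = 0 := by rw [sub_mul, one_mul, hp, sub_self]
  have h3p : (1 - p) * (1 - p) = 1 - p := by rw [mul_sub, mul_one, h2p, sub_zero]
  -- the two parts of `f`, tested with a functional `φ`, are analytic in the two scalar senses
  have hpart : ∀ (φ : A →L[ℂ] ℂ) (k : ℝ) (q : A), q * e2 p = ((k : ℂ) * Complex.I) • q →
      ∀ x ∈ U, DifferentiableAt ℝ (fun x => φ (q * f x)) x ∧
        fderiv ℝ (fun x => φ (q * f x)) x (1, 0)
          + ((k : ℂ) * Complex.I) * fderiv ℝ (fun x => φ (q * f x)) x (0, 1) = 0 := by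
    intro φ k q hq x hx
    have hL : HasFDerivAt (fun x => φ (q * f x))
        (((φ.comp (ContinuousLinearMap.mul ℂ A q)).restrictScalars ℝ).comp (fderiv ℝ f x)) x :=
      ((φ.comp (ContinuousLinearMap.mul ℂ A q)).restrictScalars ℝ).hasFDerivAt.comp x (hfd x hx)
    refine ⟨hL.differentiableAt, ?_⟩
    rw [hL.fderiv]
    have h2 := (hf x hx).2
    rw [one_mul] at h2
    have h3 := congrArg (fun z => φ (q * z)) h2
    simp only [mul_add, mul_zero, map_add, map_zero] at h3
    rw [← mul_assoc, hq, smul_mul_assoc, map_smul, smul_eq_mul] at h3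
    simpa using h3
  have hpe : p * e2 p = (((1 : ℝ) : ℂ) * Complex.I) • p := by
    rw [e2, mul_add, mul_smul_comm, mul_smul_comm, hp, h1p, smul_zero, add_zero,
      Complex.ofReal_one, one_mul]
  have hqe : (1 - p) * e2 p = (((2 : ℝ) : ℂ) * Complex.I) • (1 - p) := by
    rw [e2, mul_add, mul_smul_comm, mul_smul_comm, h3p, h2p, smul_zero, zero_add,
      Complex.ofReal_ofNat]
  rw [SeparatingDual.eq_iff_forall_dual_eq (R := ℂ)]
  intro φ
  have P1 := Pool.Agent.MP9dd505.planar 1 one_pos hR.compact hR.smooth hR.periodic hR.regular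
    hR.simple hR.boundary hR.left hU hMU (hpart φ 1 p hpe) hx₀
  have P2 := Pool.Agent.MP9dd505.planar 2 two_pos hR.compact hR.smooth hR.periodic hR.regular
    hR.simple hR.boundary hR.left hU hMU (hpart φ 2 (1 - p) hqe) hx₀
  have hsplit : φ (f x₀) = φ (p * f x₀) + φ ((1 - p) * f x₀) := by
    rw [← map_add, ← add_mul, add_sub_cancel, one_mul]
  rw [hsplit, P1, P2, map_sum, ← Finset.sum_add_distrib]
  refine Finset.sum_congr rfl fun i _ => ?_
  have h3 := (φ.restrictScalars ℝ).intervalIntegral_comp_comm (hint i)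
  refine Eq.trans ?_ h3
  rw [← intervalIntegral.integral_add]
  · refine intervalIntegral.integral_congr fun t _ => ?_
    show -(1 / (2 * Real.pi)) / (Pool.Agent.MP9dd505.phi 1 one_pos (c i t)
          - Pool.Agent.MP9dd505.phi 1 one_pos x₀) *
          ((deriv (c i) t).1 * (((1 : ℝ) : ℂ) * Complex.I) - (deriv (c i) t).2)
          * φ (p * f (c i t))
        + -(1 / (2 * Real.pi)) / (Pool.Agent.MP9dd505.phi 2 two_pos (c i t)
          - Pool.Agent.MP9dd505.phi 2 two_pos x₀) *
          ((deriv (c i) t).1 * (((2 : ℝ) : ℂ) * Complex.I) - (deriv (c i) t).2)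
          * φ ((1 - p) * f (c i t))
      = φ (kernel p (c i t) x₀ *
      (-((deriv (c i) t).2 • (1 : A)) + (deriv (c i) t).1 • e2 p) * f (c i t))
    have e : kernel p (c i t) x₀ * (-((deriv (c i) t).2 • (1 : A)) + (deriv (c i) t).1 • e2 p)
        = (sk 1 one_pos (c i t) x₀ *
            ((deriv (c i) t).1 * (((1 : ℝ) : ℂ) * Complex.I) - (deriv (c i) t).2)) • p
          + (sk 2 two_pos (c i t) x₀ *
            ((deriv (c i) t).1 * (((2 : ℝ) : ℂ) * Complex.I) - (deriv (c i) t).2)) • (1 - p) := by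
      have e0 : -((deriv (c i) t).2 • (1 : A)) + (deriv (c i) t).1 • e2 p
          = ((deriv (c i) t).1 * (((1 : ℝ) : ℂ) * Complex.I) - (deriv (c i) t).2) • p
          + ((deriv (c i) t).1 * (((2 : ℝ) : ℂ) * Complex.I) - (deriv (c i) t).2) • (1 - p) := by
        have a1 : ((deriv (c i) t).2 • (1 : A))
            = ((deriv (c i) t).2 : ℂ) • p + ((deriv (c i) t).2 : ℂ) • (1 - p) := by
          rw [← smul_add, add_sub_cancel]
          exact (Complex.coe_smul _ (1 : A)).symm
        have a2 : (deriv (c i) t).1 • e2 p = ((deriv (c i) t).1 * (((1 : ℝ) : ℂ) * Complex.I)) • p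
            + ((deriv (c i) t).1 * (((2 : ℝ) : ℂ) * Complex.I)) • (1 - p) := by
          rw [← Complex.coe_smul _ (e2 p), e2, smul_add, smul_smul, smul_smul,
            Complex.ofReal_one, one_mul, Complex.ofReal_ofNat]
        rw [a1, a2, sub_smul, sub_smul]
        abel
      rw [e0, kernel, idem_mul hp]
    rw [e, add_mul, map_add, smul_mul_assoc, smul_mul_assoc, map_smul, map_smul, smul_eq_mul,
      smul_eq_mul]
    rfl
  · refine Continuous.intervalIntegrable ?_ _ _
    refine ((hsk 1 one_pos i).mul ?_).mul (φ.continuous.comp (continuous_const.mul (hfc i)))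
    exact ((Complex.continuous_ofReal.comp (continuous_fst.comp (hcont' i))).mul
      continuous_const).sub (Complex.continuous_ofReal.comp (continuous_snd.comp (hcont' i)))
  · refine Continuous.intervalIntegrable ?_ _ _
    refine ((hsk 2 two_pos i).mul ?_).mul (φ.continuous.comp (continuous_const.mul (hfc i)))
    exact ((Complex.continuous_ofReal.comp (continuous_fst.comp (hcont' i))).mul
      continuous_const).sub (Complex.continuous_ofReal.comp (continuous_snd.comp (hcont' i)))

end General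

/-- **Main theorem.** The negated form holds, with `k = 2`, in EVERY finite-dimensional complex
algebra `A` (viewed as a real algebra) that has an idempotent other than `0` and `1`: take `e₁ = 1` and
`e₂ = i p + 2 i (1 - p)`. -/
theorem result {A : Type*} [NormedRing A] [NormedAlgebra ℂ A] [FiniteDimensional ℂ A]
    (p : A) (hp : p * p = p) (h0 : p ≠ 0) (h1 : p ≠ 1) : Counterexample A := by
  have : CompleteSpace A := FiniteDimensional.complete ℂ A
  refine ⟨1, e2 p, linInd hp h0 h1, fun _ h₁ _ h₂ => not_admissible hp h0 h1 h₁ h₂,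
    kernel p, ?_, kernel_analytic p, cauchy_formula hp⟩
  exact (kernel_analytic p).contDiffOn (isOpen_ne_fun continuous_fst continuous_snd).uniqueDiffOn

/-- Illustration (not part of the result): the algebra `ℂ × ℂ` is covered. -/
example : Counterexample (ℂ × ℂ) := by
  refine result ((1, 0) : ℂ × ℂ) ?_ ?_ ?_
  · simp
  · simp
  · simp [Prod.ext_iff]

/-- Illustration (not part of the result): the algebra of all linear maps `E → E`, that is `M_n(ℂ)`,
is covered if the complex vector space `E` has dimension `n ≥ 2`. -/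
example (E : Type*) [NormedAddCommGroup E] [NormedSpace ℂ E] [FiniteDimensional ℂ E]
    (hE : 1 < Module.finrank ℂ E) : Counterexample (E →L[ℂ] E) := by
  have hnt : Nontrivial E := Module.nontrivial_of_finrank_pos (R := ℂ) (by omega)
  obtain ⟨v, hv⟩ := exists_ne (0 : E)
  obtain ⟨φ, hφ⟩ := SeparatingDual.exists_eq_one (R := ℂ) hv
  have hap : ∀ w : E, (φ.smulRight v) w = φ w • v := fun w => rfl
  refine result (φ.smulRight v) ?_ ?_ ?_
  · ext w
    rw [mul_apply_eq_comp, hap, hap, map_smul, hφ, smul_eq_mul, mul_one]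
  · intro h
    have h1 := congrArg (fun T : E →L[ℂ] E => T v) h
    simp only [hap, hφ, one_smul] at h1
    exact hv h1
  · intro h
    have hsp : ∀ w : E, ∃ a : ℂ, a • v = w := by
      intro w
      refine ⟨φ w, ?_⟩
      have h1 := congrArg (fun T : E →L[ℂ] E => T w) h
      simpa [hap] using h1
    have := finrank_le_one v hsp
    omega

end Pool.Agent.Results.MP_9dd505_an.NotAdmissible
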